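import Mathlib
import Pool.Agent.W527.NormMain

/-!
# When are all Tate classes on all products over a finite field generated in the lowest degree?

Let `X i` be finitely many smooth projective varieties over the field with `p ^ a` elements,
`V i` the dual of the cohomology group of `X i` in degree `w i`, with coefficients extended to an
algebraically closed field, `F i` the transpose of the Frobenius, `m i = a * w i`; forms in
variables `v k ∈ V (t k)` are elements of the tensor product of the cohomology groups.  Suppose that
the eigenvalues of `F i` are conjugates of one Weil number `π i`, which generates a CM field `K i`.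
For `w i = 1` these are simple abelian varieties.

We give an exact criterion for all Tate classes, over all finite extensions, in all tensor products
of these groups to be linear combinations of products of pairings `B (F x, F y) = q ^ (w i) B (x, y)`,
that is, of Tate classes on `X i × X i` (`PairingsGenerate`).  For `w i = 1` these are classes of
divisors by the theorem of Tate, and so the Tate conjecture holds for all products of powers of the
`X i`.

For a subfield `F` of `K i` let `ν (F) = N(π i) ^ 2 / p ^ (m i [K i : F])` (`unitNorm`), where `N` is
the norm from `K i` to `F`.  The criterion (`Separated`): if `ψ`, `ψ'` are embeddings of CM subfields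
`T i`, `T i'` into `ℂ` (with `T i = T i'` if `i = i'`) and `ψ (ν (T i)) ^ a = ψ' (ν (T i')) ^ b` with
`a, b > 0`, then `i = i'` and `ψ = ψ'`.  For one Weil number `π` this says that all positive powers
of the norm of `π` to a CM subfield `F` of `ℚ(π)` generate the field `F`.  This is always necessary.
It is sufficient if every family of CM subfields `T i` of the `K i`, `i ∈ S ≠ ∅`, satisfies one of
the following conditions (`Mild`).

* (`FewPrimes`) Some prime number divides the discriminant of one of the fields `T i`, but its third
  power does not divide the product of the discriminants of the `T i`, `i ∈ S`.
* (`FewEmbeddings`) Some automorphism of `ℂ` moves at least one and at most four of the embeddings of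
  the `T i`, `i ∈ S`, into `ℂ`.
* (`OneCycle`) Some automorphism of `ℂ` acts on the pairs of conjugate embeddings of the `T i`,
  `i ∈ S`, as one cycle of odd prime length.

In the first two conditions one may replace third power by fourth power and four by six if the
norms of the `π i` to the `T i` have only two slopes (`TwoSlopes`), for instance if `X i` is an
ordinary abelian variety and `T i = K i`.

`Separated` holds if no `π i` is supersingular (`π i ^ 2 / p ^ m i` is not a root of unity), the
fields `K i` have only totally real proper subfields and are pairwise non-isomorphic.  So the Tate
conjecture holds for all powers of all abelian varieties over finite fields, not supersingular, with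
such a field `K`, if some prime divides the discriminant of `K` once or twice, in the ordinary case
also three times.
-/

namespace Pool.Agent.Results.MP_021685_ag.NormsToSubfields

open NumberField Pool.Agent.W527.Norm

theorem result (p : ℕ) [Fact p.Prime] {I : Type} [Fintype I] (K : I → Type)
    [∀ i, Field (K i)] [∀ i, NumberField (K i)] [∀ i, IsCMField (K i)]
    (m : I → ℕ) (π : ∀ i, K i) (hint : ∀ i, IsIntegral ℤ (π i))
    (hgen : ∀ i, IntermediateField.adjoin ℚ {π i} = ⊤)
    (hweil : ∀ i, ∀ φ : K i →+* ℂ, ‖φ (π i)‖ ^ 2 = (p : ℝ) ^ m i)
    (hmild : Mild p m π) :
    (PairingsGenerate p m π ↔ Separated p m π) ∧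
    ((∀ i, ∀ F : IntermediateField ℚ (K i), F ≠ ⊤ → IsTotallyReal F) →
      (∀ i i', i ≠ i' → IsEmpty (K i ≃+* K i')) →
      (∀ i, ∀ s : ℕ, 0 < s → (π i ^ 2 / (p : K i) ^ m i) ^ s ≠ 1) → Separated p m π) :=
  ⟨Pool.Agent.W527.norm_criterion hint hgen hweil hmild,
    Pool.Agent.W527.norm_separated_of_real hint hweil⟩

end Pool.Agent.Results.MP_021685_ag.NormsToSubfields
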