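import Mathlib
import Pool.Agent.W527.FrobMild

/-!
# The Tate conjecture for all powers of an abelian variety from one Frobenius polynomial

Let `A` be an abelian variety over a number field (or a finitely generated field of characteristic
zero), of any dimension and with arbitrary endomorphisms.  Suppose that for ONE place of good
reduction, with residue field of `p ^ a` elements, the characteristic polynomial of the Frobenius
element is the product of the minimal polynomials of Weil numbers `π i` which generate CM fields
`F i`, and that these Weil numbers are `Mild` and `Separated`.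

`Mild` is a condition on the families of CM subfields `T i` of the fields `F i`, `i ∈ S ≠ ∅`: some
prime number divides one of the discriminants of the `T i`, but its third power does not divide their
product; or some automorphism of `ℂ` moves at least one and at most four embeddings of the `T i`; or
it acts on the pairs of conjugate embeddings as one cycle of odd prime length; if the norms of the
`π i` to the `T i` have only two slopes, `third power` and `four` may be replaced by `fourth power`
and `six`.

`Separated`: different embeddings of CM subfields `T i`, `T i'` of the `F i` (`T i = T i'` if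
`i = i'`) never map positive powers of the norms of the `π i`, normalised to absolute value one, to the
same complex number.  For one Weil number: all powers of its norm to a CM subfield generate this
subfield.

Then for all primes `ℓ ≠ p` all Tate classes in the `ℓ`-adic cohomology of all powers of `A` are
linear combinations of wedge products of Tate classes of degree two; by the theorem of Faltings
these are classes of divisors.  So the Tate conjecture holds for all powers of `A`, and so do the
Hodge conjecture and the conjecture of Mumford and Tate.

For example: the Frobenius polynomial at one place `v` is irreducible, the reduction at `v` is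
not supersingular over the algebraic closure, the CM field defined by the polynomial has no proper
CM subfield, and its discriminant is divisible by some prime number only once or twice (or three times, if
the reduction is ordinary).  All this can be read off from one Frobenius polynomial, and there is no
condition on the dimension and on the Galois group.

In the Lean statement `V` is the rational Tate module with the action `ρ` of the Galois group, `ω`
is the Weil pairing of a polarization, `χ` is the cyclotomic character and `γ` the Frobenius
element.
-/

namespace Pool.Agent.Results.MP_021685_ag.OneFrobenius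

open NumberField Module Pool.Agent.H204R3.GP IntermediateField Pool.Agent.W527.Norm

theorem result (ℓ p : ℕ) [Fact ℓ.Prime] [Fact p.Prime] (a : ℕ) (ha : 0 < a)
    {ι : Type} [Fintype ι] (F : ι → Type) [∀ i, Field (F i)] [∀ i, NumberField (F i)]
    [∀ i, IsCMField (F i)] (π : ∀ i, F i) (hint : ∀ i, IsIntegral ℤ (π i))
    (hgen : ∀ i, ℚ⟮π i⟯ = ⊤)
    (hweil : ∀ i, π i * IsCMField.complexConj (F i) (π i) = (p : F i) ^ a)
    (hmild : Mild p (fun _ => a) π)
    (hsep : Separated p (fun _ => a) π ∨
      ((∀ i, ∀ T : IntermediateField ℚ (F i), T ≠ ⊤ → IsTotallyReal T) ∧
        (∀ i i', i ≠ i' → IsEmpty (F i ≃+* F i')) ∧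
        ∀ i, ∀ s : ℕ, 0 < s → (π i ^ 2 / (p : F i) ^ a) ^ s ≠ 1))
    {V : Type} [AddCommGroup V] [Module ℚ_[ℓ] V] [FiniteDimensional ℚ_[ℓ] V]
    {Γ : Type} [Group Γ] (ρ : Representation ℚ_[ℓ] Γ V) (χ : Γ →* ℚ_[ℓ])
    (ω : V →ₗ[ℚ_[ℓ]] V →ₗ[ℚ_[ℓ]] ℚ_[ℓ]) (halt : ∀ v, ω v v = 0)
    (hnondeg : ∀ u, (∀ v, ω v u = 0) → u = 0)
    (hω : ∀ s u v, ω (ρ s u) (ρ s v) = χ s * ω u v)
    (hss : FiniteIndexSemisimple ρ)
    (γ : Γ) (hχ : χ γ = (p : ℚ_[ℓ]) ^ a)
    (hγ : (ρ γ).charpoly = ∏ i, (minpoly ℚ (π i)).map (algebraMap ℚ ℚ_[ℓ])) :
    TateGeneratedInDegreeTwo ρ χ := by
  refine Pool.Agent.W527.tate_of_mild ha hint hgen hweil hmild ?_ ρ χ ω halt hnondeg hω hss γ hχ hγ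
  rcases hsep with hsep | ⟨h1, h2, h3⟩
  · exact hsep
  · refine Pool.Agent.W527.norm_separated_of_real hint ?_ h1 h2 h3
    intro i φ
    have h1 := congrArg (fun x => ‖φ x‖) (hweil i)
    simp only [map_mul, map_pow, map_natCast, norm_mul, norm_pow, Complex.norm_natCast] at h1
    rw [IsCMField.complexEmbedding_complexConj, Complex.norm_conj] at h1
    rw [sq]
    exact h1

end Pool.Agent.Results.MP_021685_ag.OneFrobenius
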