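import Mathlib
import Pool.Agent.W527.PrimeTate

/-!
# Tate classes on powers: a place of prime degree; K3 surfaces of height seven

Let `π` be a Weil number, all of whose powers generate the CM field `K` of degree `2 g`, and let `r`
be an odd prime number larger than `g / 2`.

First part.  Suppose that `K` has a finite place of degree `r` over `ℚ_ℓ`, for some prime number `ℓ`;
by the theorem of Chebotarev this means that `r` divides the order of the Galois group of the normal
closure of `K`.  Then all Tate classes, over all finite extensions, on all powers are linear
combinations of products of pairings `B (F x, F y) = q ^ w B (x, y)` if and only if for no imaginary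
quadratic subfield `F` of `K` the norm of `π` to `F` is supersingular.  There is no condition on the
slopes of `π`.  For absolutely simple abelian varieties over finite fields the pairings are classes of
divisors by the theorem of Tate, so the Tate conjecture holds for all powers.

Second part.  Suppose that there is one place of `K` over `p` of degree `r`, such that the slope of
`π` is different from the middle slope exactly at this place and its complex conjugate.  Then all
Tate classes on all powers are linear combinations of products of pairings.  This applies to the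
transcendental part of the second cohomology of a K3 surface of height `h`, if the characteristic
polynomial of Frobenius on it is the `e`-th power of an irreducible polynomial of degree `2 g`
(over all finite extensions) and `h / e = r` is an odd prime with `2 r > g`: the place exists since
the part of slope `1 - 1 / h` of the crystal has rank `h`.  For `h = 7` the conditions hold for all
K3 surfaces, as `2 g ≤ 20`, and for `h = 5` they hold if the Picard number is at least four.  The
pairings are algebraic by the theorem of Ito, Ito and Koshikawa on squares of K3 surfaces, so the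
Tate conjecture holds for all powers of all K3 surfaces of height seven over finite fields.  The
second part also applies to abelian varieties with the Newton slopes `s / r`, `1 / 2`, `1 - s / r`, the first
of multiplicity `r > g / 2`.
-/

namespace Pool.Agent.Results.MP_021685_ag.PlaceOfPrimeDegree

open NumberField Module Pool.Agent.W527 Pool.Agent.W527.Norm

theorem result (p : ℕ) [Fact p.Prime] (K : Type) [Field K] [NumberField K] [IsCMField K]
    (m : ℕ) (π : K) (hint : IsIntegral ℤ π)
    (hgen : ∀ n : ℕ, 0 < n → IntermediateField.adjoin ℚ {π ^ n} = ⊤)
    (hweil : ∀ φ : K →+* ℂ, ‖φ π‖ ^ 2 = (p : ℝ) ^ m)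
    (r : ℕ) (hr : r.Prime) (hr2 : r ≠ 2) (hdeg : finrank ℚ K < 4 * r) :
    ((∃ (ℓ : ℕ) (_ : Fact ℓ.Prime) (τ : K →+* PadicAlgCl ℓ), (localOrbit ℓ τ).ncard = r) →
      (PairingsGenerate (I := Unit) (K := fun _ => K) p (fun _ => m) (fun _ => π) ↔
        ∀ F : IntermediateField ℚ K, finrank ℚ F = 2 → ¬ IsTotallyReal F → ∀ n : ℕ, 0 < n →
          unitNorm p m F π ^ n ≠ 1)) ∧
    ((∃ τ₁ : K →+* PadicAlgCl p, (localOrbit p τ₁).ncard = r ∧ ‖τ₁ π‖ ^ 2 ≠ ((p : ℝ) ^ m)⁻¹ ∧
      ∀ τ : K →+* PadicAlgCl p, τ ∉ localOrbit p τ₁ →
        τ.comp (IsCMField.complexConj K : K →+* K) ∉ localOrbit p τ₁ →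
          ‖τ π‖ ^ 2 = ((p : ℝ) ^ m)⁻¹) →
      PairingsGenerate (I := Unit) (K := fun _ => K) p (fun _ => m) (fun _ => π)) := by
  constructor
  · rintro ⟨ℓ, hℓ, τ, hτ⟩
    exact place_tate hint hgen hweil hr hr2 hdeg τ hτ
  · rintro ⟨τ₁, h1, h2, h3⟩
    exact (place_tate hint hgen hweil hr hr2 hdeg τ₁ h1).2
      (norm_ne_of_orbit hweil (hr.odd_of_ne_two hr2) τ₁ h1 h2 h3)

end Pool.Agent.Results.MP_021685_ag.PlaceOfPrimeDegree
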