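import Mathlib
import Pool.Agent.W527.TwoPairsTate

/-!
# K3 surfaces of height two, and abelian varieties with two pairs of slopes

Let `V` be a Frobenius module over a finite field, whose eigenvalues are conjugates of one Weil
number `π` which generates a CM field `K`, for instance the transcendental part of the second
cohomology of a K3 surface of finite height, or the first cohomology of a simple abelian variety.
Suppose that at most four embeddings `τ` of `K` into an algebraic closure of `ℚ_p` have a slope
`v(τ π)` different from the middle slope.  For a K3 surface of height `h` whose Frobenius polynomial
is the `e`-th power of an irreducible polynomial on the transcendental part, the number of these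
embeddings is `2 h / e`; so all K3 surfaces of height one and two satisfy the condition, and also
all simple abelian varieties of `p`-rank one or two with all other slopes one half.  There is no
condition on the degree of `K`, on its Galois group or its ramification.

Then all Tate classes on all powers, over all finite extensions of the base field, are linear
combinations of products of pairings `B (F x, F y) = q ^ w B (x, y)` IF AND ONLY IF for no CM
subfield `F` of `K` the norm of `π` to `F` is supersingular (`unitNorm`, that is
`N(π) ^ 2 / p ^ (m [K : F])`, is not a root of unity).

For abelian varieties the pairings are classes of divisors by the theorem of Tate, for K3 surfaces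
they are algebraic by the theorem of Ito, Ito and Koshikawa on the square of a K3 surface.  So the
Tate conjecture holds for all powers of such varieties, and if the condition on the norms is not
satisfied, there are exotic Tate classes.
-/

namespace Pool.Agent.Results.MP_021685_ag.TwoPairsOfSlopes

open NumberField Pool.Agent.W527.Norm

/-- `PairingsGenerate` for one Weil number `π` of absolute value `p ^ (m / 2)` (the family has the
index set `Unit`). -/
theorem result (p : ℕ) [Fact p.Prime] (K : Type) [Field K] [NumberField K] [IsCMField K]
    (m : ℕ) (π : K) (hint : IsIntegral ℤ π) (hgen : IntermediateField.adjoin ℚ {π} = ⊤)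
    (hweil : ∀ φ : K →+* ℂ, ‖φ π‖ ^ 2 = (p : ℝ) ^ m)
    (hslopes : {τ : K →+* PadicAlgCl p | ‖τ π‖ ^ 2 ≠ ((p : ℝ) ^ m)⁻¹}.ncard ≤ 4) :
    PairingsGenerate (I := Unit) (K := fun _ => K) p (fun _ => m) (fun _ => π) ↔
      ∀ F : IntermediateField ℚ K, ¬ IsTotallyReal F → ∀ n : ℕ, 0 < n →
        unitNorm p m F π ^ n ≠ 1 :=
  Pool.Agent.W527.two_pairs_tate hint hgen hweil hslopes

end Pool.Agent.Results.MP_021685_ag.TwoPairsOfSlopes
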